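import Pool.Agent.Helper859_PC.Fin

/-!
# The average over the window length of the discrepancy of Montgomery's pair count

No hypothesis is assumed.  Let `P(T; u)` be the number of ordered pairs of zeros with ordinates in
`(0, T]`, with multiplicity, with `(γ₁ - γ₂) log T / 2π` in `(0, u]`, let `N(T; 0, 0)` be the number
of the ordered pairs with equal ordinates (with multiplicity, the diagonal included), let
`F(u) = 1 - (sin πu / πu)²` and `norm T = (T / 2π) log T`.  There are `C`, `T₀` such that for all
`T ≥ T₀` and all `a > 0` with `a log a ≤ log T`,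
`|(1/a) ∫_0^a (P(T; u) / norm T - ∫_0^u F) du - (1 - N(T; 0, 0) / norm T) / 2|
  ≤ C (1/a + a / log T)`.
So the discrepancy of Montgomery's prediction has, on average over the lengths `u ≤ a`,
`1 ≤ a ≤ √log T`, the limit `(1 - N(T; 0, 0) / norm T) / 2` up to `O(1/a)`; it is `O(1/a)` if and
only if `N(T; 0, 0) = (1 + O(1/a)) norm T`.

Idea of the proof.  The number variance of the zeros in windows of `a` mean spacings is known
unconditionally up to `O(1)`, with main term `(1/π²) log (1 + a)`, and it is exactly a sum over
pairs with the triangular kernel `max (0, a - |u|)`, that is an average over `u ≤ a` of the number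
of pairs at distance at most `u`.
-/

set_option autoImplicit false

open MeasureTheory

namespace Pool.Agent.Results.MP_8958e8_nt.AverageDiscrepancy

/-- the nontrivial zeros of zeta with ordinate in `(0, T]` -/
def zeros (T : ℝ) : Set ℂ :=
  {s : ℂ | riemannZeta s = 0 ∧ 0 < s.re ∧ s.re < 1 ∧ 0 < s.im ∧ s.im ≤ T}

/-- the multiplicity of a zero -/
noncomputable def mult (s : ℂ) : ℕ := analyticOrderNatAt riemannZeta s

/-- `N(T; α, β)`: the number of ordered pairs of zeros in `zeros T`, counted with multiplicity,
with difference of the ordinates times `log T / 2π` in `[α, β]` -/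
noncomputable def N (T α β : ℝ) : ℕ :=
  ∑ᶠ s ∈ zeros T, ∑ᶠ s' ∈ {s' : ℂ | s' ∈ zeros T ∧
    α ≤ (s.im - s'.im) * Real.log T / (2 * Real.pi) ∧
    (s.im - s'.im) * Real.log T / (2 * Real.pi) ≤ β}, mult s * mult s'

/-- `P(T; u)`: the number of ordered pairs of zeros in `zeros T`, counted with multiplicity,
with difference of the ordinates times `log T / 2π` in `(0, u]` -/
noncomputable def P (T u : ℝ) : ℕ :=
  ∑ᶠ s ∈ zeros T, ∑ᶠ s' ∈ {s' : ℂ | s' ∈ zeros T ∧
    0 < (s.im - s'.im) * Real.log T / (2 * Real.pi) ∧
    (s.im - s'.im) * Real.log T / (2 * Real.pi) ≤ u}, mult s * mult s'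

/-- the pair correlation function -/
noncomputable def F (u : ℝ) : ℝ := 1 - (Real.sin (Real.pi * u) / (Real.pi * u)) ^ 2

/-- the normalisation `(T / 2π) log T` -/
noncomputable def norm (T : ℝ) : ℝ := T / (2 * Real.pi) * Real.log T

/-- the sets of zeros that are summed over are finite -/
theorem zeros_finite (T : ℝ) : (zeros T).Finite := Helper859_PC.Fin.zeros_finite T

/-- **The average of the discrepancy of Montgomery's pair count.**  No hypothesis is assumed. -/
theorem result :
    ∃ C T₀ : ℝ, ∀ T : ℝ, T₀ ≤ T → ∀ a : ℝ, 0 < a → a * Real.log a ≤ Real.log T →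
      |1 / a * (∫ u in (0 : ℝ)..a, ((P T u : ℝ) / norm T - ∫ v in (0 : ℝ)..u, F v)) -
        (1 - (N T 0 0 : ℝ) / norm T) / 2| ≤ C * (1 / a + a / Real.log T) :=
  Helper859_PC.Fin.main.2

end Pool.Agent.Results.MP_8958e8_nt.AverageDiscrepancy
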