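import Pool.Agent.Helper859_PC.Fin

/-!
# Montgomery's pair count: bounded discrepancy, uniformly in the window, unconditionally

No hypothesis is assumed.  Let `N(T; α, β)` be the pair count of the problem (ordered pairs of
zeros with ordinates in `(0, T]`, with multiplicity, with `(γ₁ - γ₂) log T / 2π` in `[α, β]`),
`F(u) = 1 - (sin πu / πu)²` and `norm T = (T / 2π) log T`.  There are `C`, `T₀` such that for all
`T ≥ T₀` and all `0 < α ≤ β` with `β log β ≤ log T`,
`|N(T; α, β) - norm T * ∫_α^β F| ≤ C * norm T`.
The constant does not depend on the window; in particular the ratio of the two sides of Q1 is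
`1 + O(1 / (β - α))`, also for windows whose length grows with `T`.

Idea of the proof.  The number variance of the zeros in windows of `a` mean spacings is known
unconditionally up to `O(1)`.  It is a sum over pairs with a triangular kernel, and first
differences in `a` of such sums bound the numbers of pairs from above and from below.
-/

set_option autoImplicit false

open MeasureTheory

namespace Pool.Agent.Results.MP_8958e8_nt.BoundedError

/-- the nontrivial zeros of zeta with ordinate in `(0, T]` -/
def zeros (T : ℝ) : Set ℂ :=
  {s : ℂ | riemannZeta s = 0 ∧ 0 < s.re ∧ s.re < 1 ∧ 0 < s.im ∧ s.im ≤ T}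

/-- the multiplicity of a zero -/
noncomputable def mult (s : ℂ) : ℕ := analyticOrderNatAt riemannZeta s

/-- `N(T; α, β)`: the number of ordered pairs of zeros in `zeros T`, counted with multiplicity,
with difference of the ordinates times `log T / 2π` in `[α, β]` -/
noncomputable def N (T α β : ℝ) : ℕ :=
  ∑ᶠ s ∈ zeros T, ∑ᶠ s' ∈ {s' : ℂ | s' ∈ zeros T ∧
    α ≤ (s.im - s'.im) * Real.log T / (2 * Real.pi) ∧
    (s.im - s'.im) * Real.log T / (2 * Real.pi) ≤ β}, mult s * mult s'

/-- the pair correlation function -/
noncomputable def F (u : ℝ) : ℝ := 1 - (Real.sin (Real.pi * u) / (Real.pi * u)) ^ 2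

/-- the normalisation `(T / 2π) log T` -/
noncomputable def norm (T : ℝ) : ℝ := T / (2 * Real.pi) * Real.log T

/-- the sets of zeros that are summed over are finite -/
theorem zeros_finite (T : ℝ) : (zeros T).Finite := Helper859_PC.Fin.zeros_finite T

/-- **Bounded discrepancy of Montgomery's pair count, uniformly in the window.**
No hypothesis is assumed. -/
theorem result :
    ∃ C T₀ : ℝ, ∀ T : ℝ, T₀ ≤ T → ∀ α β : ℝ, 0 < α → α ≤ β → β * Real.log β ≤ Real.log T →
      |(N T α β : ℝ) - norm T * ∫ u in α..β, F u| ≤ C * norm T :=
  Helper859_PC.Fin.main.1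

end Pool.Agent.Results.MP_8958e8_nt.BoundedError
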