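import Pool.Agent.Helper859_PC.Eff

/-!
# Montgomery's pair correlation conjecture is equivalent to its lower half, unconditionally

No hypothesis (in particular not the Riemann hypothesis) is assumed.  Notation: `N(T; α, β)` is the
pair count of the problem (ordered pairs of zeros with ordinates in `(0, T]`, with multiplicity,
with `(γ₁ - γ₂) log T / 2π` in `[α, β]`), `F(u) = 1 - (sin πu / πu)²`, `norm T = (T / 2π) log T`,
and `N₁(T)` is the number of the simple zeros on the critical line with ordinate in `(0, T]`.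

* `Q1`: `N(T; α, β) ~ norm T ∫_α^β F` for all `0 < α < β` (the question).
* `LowerHalf`: `liminf N(T; α, β) / (norm T ∫_α^β F) ≥ 1` for all `0 < α < β`.

Theorem.  `Q1` holds if and only if `LowerHalf` holds.  Effectively, and at each single height:
there are constants `K`, `T₀` such that for all `T ≥ T₀`, `1 ≤ B ≤ √(log T)` and `η ≥ 0`, if
`N(T; α, β) ≥ norm T (∫_α^β F - η)` for all `0 < α < β ≤ B`, then
`N(T; α, β) ≤ norm T (∫_α^β F + η + (η B + K) / (B - β))` for all `0 < α < β < B`,
`N(T; 0, 0) ≤ norm T (1 + 2 η + K / B)` and `N₁(T) ≥ norm T (1 - 2 η - K / B)`.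

Idea of the proof.  The number variance of the zeros in windows of `a` mean spacings is known
unconditionally up to `O(1)`.  It is a sum over pairs with a triangular kernel, so it gives the
average over the lengths `u ≤ a` of the discrepancy
`D(u) = #{pairs with difference in (0, u]} / norm T - ∫_0^u F`: this average is
`(1 - N(T; 0, 0) / norm T) / 2 + O(1/a)`, at most `O(1/a)`.  The lower half of the conjecture says
that `D` is asymptotically nondecreasing; since `D(0) = 0`, a positive value of `D` anywhere would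
persist and contradict the average.
-/

set_option autoImplicit false

open MeasureTheory Filter Topology

namespace Pool.Agent.Results.MP_8958e8_nt.HalfSuffices

/-- the nontrivial zeros of zeta with ordinate in `(0, T]` -/
def zeros (T : ℝ) : Set ℂ :=
  {s : ℂ | riemannZeta s = 0 ∧ 0 < s.re ∧ s.re < 1 ∧ 0 < s.im ∧ s.im ≤ T}

/-- the multiplicity of a zero -/
noncomputable def mult (s : ℂ) : ℕ := analyticOrderNatAt riemannZeta s

/-- `N(T; α, β)`: the number of ordered pairs of zeros in `zeros T`, counted with multiplicity,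
with difference of the ordinates times `log T / 2π` in `[α, β]` -/
noncomputable def N (T α β : ℝ) : ℕ :=
  ∑ᶠ s ∈ zeros T, ∑ᶠ s' ∈ {s' : ℂ | s' ∈ zeros T ∧
    α ≤ (s.im - s'.im) * Real.log T / (2 * Real.pi) ∧
    (s.im - s'.im) * Real.log T / (2 * Real.pi) ≤ β}, mult s * mult s'

/-- the number of simple zeros on the critical line with ordinate in `(0, T]` -/
noncomputable def N1 (T : ℝ) : ℕ := {s : ℂ | s ∈ zeros T ∧ s.re = 1 / 2 ∧ mult s = 1}.ncard

/-- the pair correlation function -/
noncomputable def F (u : ℝ) : ℝ := 1 - (Real.sin (Real.pi * u) / (Real.pi * u)) ^ 2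

/-- the normalisation `(T / 2π) log T` -/
noncomputable def norm (T : ℝ) : ℝ := T / (2 * Real.pi) * Real.log T

/-- the sets of zeros that are summed over are finite -/
theorem zeros_finite (T : ℝ) : (zeros T).Finite := Helper859_PC.Fin.zeros_finite T

/-- the question Q1 -/
def Q1 : Prop := ∀ α β : ℝ, 0 < α → α < β →
  Tendsto (fun T : ℝ => (N T α β : ℝ) / (norm T * ∫ u in α..β, F u)) atTop (𝓝 1)

/-- the lower half of Q1 -/
def LowerHalf : Prop := ∀ α β : ℝ, 0 < α → α < β → ∀ ε : ℝ, 0 < ε →
  ∀ᶠ T : ℝ in atTop, 1 - ε ≤ (N T α β : ℝ) / (norm T * ∫ u in α..β, F u)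

/-- **Montgomery's conjecture is equivalent to its lower half, effectively at each height.**
No hypothesis is assumed. -/
theorem result :
    (Q1 ↔ LowerHalf) ∧
    (∃ K T₀ : ℝ, 0 < K ∧ ∀ T : ℝ, T₀ ≤ T → ∀ B η : ℝ, 1 ≤ B → B ^ 2 ≤ Real.log T → 0 ≤ η →
      (∀ α β : ℝ, 0 < α → α < β → β ≤ B → norm T * ((∫ u in α..β, F u) - η) ≤ N T α β) →
      (∀ α β : ℝ, 0 < α → α < β → β < B →
        (N T α β : ℝ) ≤ norm T * ((∫ u in α..β, F u) + η + (η * B + K) / (B - β))) ∧
      (N T 0 0 : ℝ) ≤ norm T * (1 + 2 * η + K / B) ∧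
      norm T * (1 - 2 * η - K / B) ≤ N1 T) :=
  ⟨Helper859_PC.Fin.iff_lower, Helper859_PC.Fin.eff⟩

end Pool.Agent.Results.MP_8958e8_nt.HalfSuffices
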